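import Pool.Agent.Q45.ML.Stark

/-!
# The rank one conjecture for one character from its smoothed Frobenius sums

`K/F` is a finite Galois extension of number fields, `U ⊆ K^×` a Galois-stable subgroup (for instance `U_{v,S}`), `v` an
embedding of `K`, `χ` a character of `Gal(K/F)` with values in a number field `E` (for instance `ℚ(χ)`), embedded by `ι`.
`L` is the function `∏_{w ∉ S} (1 - χ(φ w) N(w)^{-s})⁻¹`, continued along `[0, 1]`, analytic at `0` and zero there. Put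

`S_χ(T) = ∑_{w ∉ S} ∑_{k ≥ 1} (χ(φ w)^k/k) e^{iγ k log N(w)/T} / Γ(1 + k log N(w)/T)`, `γ > π/2`.

Then `T e^{S_χ(T) - Λ} = L'(0) + O(1/T)`. Let the `χ⁻¹`-part of `E ⊗ U` be generated by `η` with `log|η|_v ≠ 0`. Then
`L'(0) = log|u|_v` for some `u` in the `χ⁻¹`-part if and only if for some `D, B ≥ 1` the numbers
`D T e^{S_χ(T) - Λ} / log|η|_v` come arbitrarily close, along one sequence `T → ∞`, to the finite set of the `ι(a)`, `a` an
algebraic integer of `E` all of whose conjugates have absolute value at most `B`.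
-/

set_option autoImplicit false
set_option linter.unusedSectionVars false

namespace Pool.Agent.Results.MP_c49e96_nt.MixedSignatureCharacter

open IsDedekindDomain NumberField Filter Topology Asymptotics TensorProduct
open Pool.Agent.Q45.ML

variable {F K E : Type} [Field F] [NumberField F] [Field K] [NumberField K] [Algebra F K]
  [Field E] [NumberField E]

/-- `U` is stable under the Galois group -/
def IsStable (F : Type) [Field F] [Algebra F K] (U : Subgroup Kˣ) : Prop :=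
  ∀ σ : K ≃ₐ[F] K, ∀ u ∈ U, Units.map (σ : K →* K) u ∈ U

/-- the action of `σ` on `U`, written additively -/
def act {U : Subgroup Kˣ} (hU : IsStable F U) (σ : K ≃ₐ[F] K) : Additive U →+ Additive U :=
  MonoidHom.toAdditive (((Units.map (σ : K →* K)).comp U.subtype).codRestrict U fun u => hU σ u u.2)

/-- the map `a ⊗ u ↦ ι(a) log|v(u)|` -/
noncomputable def logv (U : Subgroup Kˣ) (ι : E →+* ℂ) (v : K →+* ℂ) : E ⊗[ℤ] Additive U →ₗ[ℤ] ℂ :=
  TensorProduct.lift (LinearMap.mk₂ ℤ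
    (fun (a : E) (u : Additive U) => ι a * (Real.log ‖v ((u.toMul : Kˣ) : K)‖ : ℂ))
    (fun a b u => by rw [map_add, add_mul])
    (fun n a u => by simp [mul_assoc])
    (fun a u u' => by
      have h1 : ‖v ((u.toMul : Kˣ) : K)‖ ≠ 0 := norm_ne_zero_iff.2 ((map_ne_zero v).2 (Units.ne_zero _))
      have h2 : ‖v ((u'.toMul : Kˣ) : K)‖ ≠ 0 := norm_ne_zero_iff.2 ((map_ne_zero v).2 (Units.ne_zero _))
      rw [toMul_add, Subgroup.coe_mul, Units.val_mul, map_mul, norm_mul, Real.log_mul h1 h2]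
      push_cast
      ring)
    (fun n a u => by
      rw [toMul_zsmul, Subgroup.coe_zpow, Units.val_zpow_eq_zpow_val, map_zpow₀, norm_zpow, Real.log_zpow]
      push_cast
      rw [zsmul_eq_mul]
      ring))

/-- the `χ⁻¹`-part of `E ⊗ U` -/
def part {U : Subgroup Kˣ} (hU : IsStable F U) (χ : (K ≃ₐ[F] K) →* Eˣ) : Set (E ⊗[ℤ] Additive U) :=
  {x | ∀ σ, (act hU σ).toIntLinearMap.baseChange E x = ((χ σ : E)⁻¹) • x}

/-- the term at `(w, k)`, `k = z.2 + 1`, of the smoothed character sum -/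
noncomputable def term (Sf : Finset (HeightOneSpectrum (𝓞 F))) (φ : HeightOneSpectrum (𝓞 F) → (K ≃ₐ[F] K))
    (χ : (K ≃ₐ[F] K) →* Eˣ) (ι : E →+* ℂ) (γ T : ℝ)
    (z : {w : HeightOneSpectrum (𝓞 F) // w ∉ Sf} × ℕ) : ℂ :=
  ι (χ (φ z.1)) ^ (z.2 + 1) / (z.2 + 1) *
    (Complex.exp ((γ * ((z.2 + 1) * Real.log (Ideal.absNorm z.1.1.asIdeal : ℝ) / T) : ℝ) * Complex.I) /
      (Real.Gamma (1 + (z.2 + 1) * Real.log (Ideal.absNorm z.1.1.asIdeal : ℝ) / T) : ℂ))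

/-- the smoothed character sum -/
noncomputable def S (Sf : Finset (HeightOneSpectrum (𝓞 F))) (φ : HeightOneSpectrum (𝓞 F) → (K ≃ₐ[F] K))
    (χ : (K ≃ₐ[F] K) →* Eˣ) (ι : E →+* ℂ) (γ T : ℝ) : ℂ := ∑' z, term Sf φ χ ι γ T z

/-- `Λ = ∫_0^∞ (e^{-u} - e^{iγu} / Γ(1 + u)) du / u` -/
noncomputable def Λ (γ : ℝ) : ℂ := ∫ u in Set.Ioi (0 : ℝ),
  (Complex.exp (-(u : ℂ)) - Complex.exp ((γ * u : ℝ) * Complex.I) * ((Real.Gamma (1 + u))⁻¹ : ℝ)) / u

/-- the values `ι(a)` of the algebraic integers of `E` all of whose conjugates are at most `B` -/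
def small (ι : E →+* ℂ) (B : ℝ) : Set ℂ := {z | ∃ a : 𝓞 E, z = ι a ∧ ∀ τ : E →+* ℂ, ‖τ a‖ ≤ B}

theorem small_finite (ι : E →+* ℂ) (B : ℝ) : (small ι B).Finite := by
  refine ((Embeddings.finite_of_norm_le E ℂ B).image ι).subset ?_
  rintro z ⟨a, rfl, ha⟩
  exact ⟨a, ⟨a.isIntegral_coe, ha⟩, rfl⟩

theorem logv_tmul (U : Subgroup Kˣ) (ι : E →+* ℂ) (v : K →+* ℂ) (a : E) (u : Additive U) :
    logv U ι v (a ⊗ₜ[ℤ] u) = ι a * (Real.log ‖v ((u.toMul : Kˣ) : K)‖ : ℂ) := rfl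

theorem logv_smul (U : Subgroup Kˣ) (ι : E →+* ℂ) (v : K →+* ℂ) (c : E) (x : E ⊗[ℤ] Additive U) :
    logv U ι v (c • x) = ι c * logv U ι v x := by
  induction x using TensorProduct.induction_on with
  | zero => simp
  | tmul a u =>
    rw [TensorProduct.smul_tmul', logv_tmul, logv_tmul, smul_eq_mul, map_mul, mul_assoc]
  | add x y hx hy => rw [smul_add, map_add, map_add, hx, hy, mul_add]

theorem part_smul {U : Subgroup Kˣ} (hU : IsStable F U) (χ : (K ≃ₐ[F] K) →* Eˣ) {x : E ⊗[ℤ] Additive U}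
    (hx : x ∈ part hU χ) (c : E) : c • x ∈ part hU χ := by
  intro σ
  rw [map_smul, hx σ, smul_comm]

theorem norm_val [Finite (K ≃ₐ[F] K)] (χ : (K ≃ₐ[F] K) →* Eˣ) (ι : E →+* ℂ) (g : K ≃ₐ[F] K) :
    ‖ι (χ g)‖ = 1 := by
  have h1 : (χ g) ^ Nat.card (K ≃ₐ[F] K) = 1 := by
    rw [← map_pow, pow_card_eq_one', map_one]
  have h2 : (ι (χ g)) ^ Nat.card (K ≃ₐ[F] K) = 1 := by
    have := congrArg (fun u : Eˣ => ι (u : E)) h1
    simpa using this
  exact Complex.norm_eq_one_of_pow_eq_one h2 Nat.card_pos.ne'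

theorem result [IsGalois F K] (U : Subgroup Kˣ) (hU : IsStable F U) (v : K →+* ℂ)
    (χ : (K ≃ₐ[F] K) →* Eˣ) (ι : E →+* ℂ) (Sf : Finset (HeightOneSpectrum (𝓞 F)))
    (φ : HeightOneSpectrum (𝓞 F) → (K ≃ₐ[F] K)) (L : ℂ → ℂ)
    (hmero : ∀ σ : ℝ, 0 ≤ σ → σ ≤ 1 → MeromorphicAt L (σ : ℂ)) (han : AnalyticAt ℂ L 0) (h0 : L 0 = 0)
    (hL : ∀ s : ℂ, 1 < s.re → HasProd (fun w : {w : HeightOneSpectrum (𝓞 F) // w ∉ Sf} =>
      (1 - ι (χ (φ w)) * (Ideal.absNorm w.1.asIdeal : ℂ) ^ (-s))⁻¹) (L s))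
    (η : E ⊗[ℤ] Additive U) (hη : η ∈ part hU χ) (hlog : logv U ι v η ≠ 0)
    (hgen : ∀ x ∈ part hU χ, ∃ c : E, x = c • η) {γ : ℝ} (hγ : Real.pi / 2 < γ) :
    (∀ T : ℝ, 0 < T → Summable fun z => ‖term Sf φ χ ι γ T z‖) ∧
    (fun T : ℝ => T * Complex.exp (S Sf φ χ ι γ T) * Complex.exp (-Λ γ) - deriv L 0) =O[atTop]
      (fun T : ℝ => 1 / T) ∧
    ((∃ u ∈ part hU χ, deriv L 0 = logv U ι v u) ↔ ∃ D B : ℕ, 0 < D ∧ 0 < B ∧
      ∃ t : ℕ → ℝ, Tendsto t atTop atTop ∧ Tendsto (fun i => Metric.infDist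
        ((D : ℂ) * (t i * Complex.exp (S Sf φ χ ι γ (t i)) * Complex.exp (-Λ γ) / logv U ι v η))
          (small ι B)) atTop (𝓝 0)) := by
  have hE : Eul 1 (fun w : {w : HeightOneSpectrum (𝓞 F) // w ∉ Sf} => nrm w.1)
      (fun w (_ : Fin 1) => ι (χ (φ w))) 0 1 :=
    eul_nf Sf (α := fun w (_ : Fin 1) => ι (χ (φ w))) (fun w _ j => by rw [norm_val, Real.rpow_zero])
  have hterm : ∀ T z, term Sf φ χ ι γ T z =
      sterm (fun w : {w : HeightOneSpectrum (𝓞 F) // w ∉ Sf} => nrm w.1)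
        (fun w (_ : Fin 1) => ι (χ (φ w))) 0 γ T z := by
    intro T z
    unfold term sterm nrm
    simp
  have hS : ∀ T, smooth (fun w : {w : HeightOneSpectrum (𝓞 F) // w ∉ Sf} => nrm w.1)
      (fun w (_ : Fin 1) => ι (χ (φ w))) 0 γ T = S Sf φ χ ι γ T := by
    intro T
    unfold smooth S
    simp only [hterm]
  obtain ⟨m, r, h1, h2, h3⟩ := hE.lawC (F := L) (s₀ := 0) (by norm_num)
    (fun x hx hx1 => hmero x hx (by linarith))
    (fun s hs => by
      refine (hL s (by linarith)).congr_fun fun w => ?_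
      rw [Fin.prod_univ_one]
      rfl) hγ
  simp only [hS] at h3
  have h4 := deriv_rate_any (F := L) (s₀ := 0) (by rw [Complex.ofReal_zero]; exact han)
    (by rw [Complex.ofReal_zero]; exact h0) h1 h2 h3
  rw [Complex.ofReal_zero] at h4
  have hrate : (fun T : ℝ => T * Complex.exp (S Sf φ χ ι γ T) * Complex.exp (-Λ γ) - deriv L 0) =O[atTop]
      (fun T : ℝ => 1 / T) := h4
  refine ⟨fun T hT => ?_, hrate, ?_⟩
  · simp only [hterm]
    exact hE.sterm_summable 0 γ hT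
  have hlim : ∀ D : ℕ, Tendsto (fun T : ℝ => (D : ℂ) *
      (T * Complex.exp (S Sf φ χ ι γ T) * Complex.exp (-Λ γ) / logv U ι v η)) atTop
      (𝓝 (D * (deriv L 0 / logv U ι v η))) :=
    fun D => ((tendsto_of_rate hrate).div_const _).const_mul _
  have hne : ∀ B : ℕ, (small ι (B : ℝ)).Nonempty := fun B => ⟨0, 0, by simp, fun τ => by simp⟩
  have hiff : ∀ D B : ℕ, ((D : ℂ) * (deriv L 0 / logv U ι v η) ∈ small ι (B : ℝ)) ↔
      ∃ t : ℕ → ℝ, Tendsto t atTop atTop ∧ Tendsto (fun i => Metric.infDist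
        ((D : ℂ) * (t i * Complex.exp (S Sf φ χ ι γ (t i)) * Complex.exp (-Λ γ) / logv U ι v η))
          (small ι (B : ℝ))) atTop (𝓝 0) := fun D B =>
    (closed_tfae (small_finite ι B).isClosed (hne B) (hlim D)).out 0 2
  constructor
  · rintro ⟨u, hu, hlu⟩
    obtain ⟨c, rfl⟩ := hgen u hu
    obtain ⟨D, hD, a, ha⟩ := clear_denominator c
    obtain ⟨B, hB⟩ := exists_nat_ge (∑ τ : E →+* ℂ, ‖τ (a : E)‖)
    refine ⟨D, B + 1, hD, Nat.succ_pos _, (hiff D (B + 1)).1 ⟨a, ?_, fun τ => ?_⟩⟩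
    · rw [hlu, logv_smul, mul_div_cancel_right₀ _ hlog, ← ha, map_mul, map_natCast]
    · have h5 : ‖τ (a : E)‖ ≤ ∑ τ : E →+* ℂ, ‖τ (a : E)‖ :=
        Finset.single_le_sum (f := fun τ : E →+* ℂ => ‖τ (a : E)‖) (fun _ _ => norm_nonneg _)
          (Finset.mem_univ τ)
      push_cast
      linarith
  · rintro ⟨D, B, hD, -, ht⟩
    obtain ⟨a, ha, -⟩ := (hiff D B).2 ht
    refine ⟨((a : E) / D) • η, part_smul hU χ hη _, ?_⟩
    have hDc : (D : ℂ) ≠ 0 := by exact_mod_cast hD.ne'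
    rw [logv_smul, map_div₀, map_natCast, ← ha]
    field_simp

end Pool.Agent.Results.MP_c49e96_nt.MixedSignatureCharacter
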